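import Pool.Agent.MuOne.Ana1

/-!
The boundary value at `b/q` as a difference of two values of primitives.
-/

set_option autoImplicit false

open UpperHalfPlane hiding I
open Filter Topology Complex Function CongruenceSubgroup OnePoint Matrix.SpecialLinearGroup
open scoped MatrixGroups Manifold Real ModularForm

namespace Pool.Agent.MuOne

open Pool.Agent.MZ.Per Pool.Agent.MZ

variable {N : ℕ} [NeZero N]

/-- A primitive of `2 π i f|S` vanishing at `i∞`. -/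
theorem exists_H (f : CuspForm (Gamma0 N) 2) :
    ∃ H : ℍ → ℂ, Prim (fun z => 2 * π * Complex.I * (⇑f ∣[(2 : ℤ)] ModularGroup.S) z) H 0 := by
  obtain ⟨H, hH⟩ := exists_prim_slash f ModularGroup.S
  refine ⟨fun z => 2 * π * Complex.I * H z, fun z => ?_, ?_⟩
  · exact (hH.der z).const_mul (2 * π * Complex.I)
  · simpa using hH.lim.const_mul (2 * π * Complex.I)

noncomputable def HS (f : CuspForm (Gamma0 N) 2) : ℍ → ℂ := (exists_H f).choose

theorem prim_HS (f : CuspForm (Gamma0 N) 2) :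
    Prim (fun z => 2 * π * Complex.I * (⇑f ∣[(2 : ℤ)] ModularGroup.S) z) (HS f) 0 :=
  (exists_H f).choose_spec

/-- `f|σ = f|S` if `N` divides the lower right entry of `σ`. -/
theorem slash_eq (f : CuspForm (Gamma0 N) 2) {σ : SL(2, ℤ)} (h : (N : ℤ) ∣ σ 1 1) :
    ⇑f ∣[(2 : ℤ)] σ = ⇑f ∣[(2 : ℤ)] ModularGroup.S := by
  have hmem : σ * ModularGroup.S⁻¹ ∈ Gamma0 N := by
    rw [Gamma0_mem]
    have h1 : (σ * ModularGroup.S⁻¹) 1 0 = - σ 1 1 := by
      simp [ModularGroup.S, Matrix.SpecialLinearGroup.coe_inv, Matrix.adjugate_fin_two,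
        Matrix.mul_apply, Fin.sum_univ_two]
    rw [h1, ZMod.intCast_zmod_eq_zero_iff_dvd]
    exact (dvd_neg).2 h
  have hf : ⇑f ∣[(2 : ℤ)] (σ * ModularGroup.S⁻¹) = ⇑f :=
    SlashInvariantForm.slash_action_eqn f (mapGL ℝ (σ * ModularGroup.S⁻¹))
      (Subgroup.mem_map_of_mem _ hmem)
  have h2 : σ = (σ * ModularGroup.S⁻¹) * ModularGroup.S := by group
  conv_lhs => rw [h2, SlashAction.slash_mul, hf]

theorem const_slash (f : CuspForm (Gamma0 N) 2) (σ : SL(2, ℤ)) :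
    ((fun z : ℍ => 2 * π * Complex.I * f z) ∣[(2 : ℤ)] σ) =
      fun z : ℍ => 2 * π * Complex.I * (⇑f ∣[(2 : ℤ)] σ) z := by
  funext z
  rw [ModularForm.SL_slash_apply, ModularForm.SL_slash_apply]
  ring

/-- The boundary value at `b/q`. -/
theorem bd_formula (f : CuspForm (Gamma0 N) 2) {b d : ℤ} {q : ℕ} (hq : 0 < q)
    (hd : (N : ℤ) ∣ d) (hbd : (q : ℤ) ∣ b * d - 1) {t : ℝ} (ht : 0 < t) :
    bd (G f) ((((b : ℚ) / (q : ℚ) : ℚ)) : OnePoint ℚ) =
      G f (vert ((b : ℝ) / q) t) - HS f (vert (-(d : ℝ) / q) (1 / ((q : ℝ) ^ 2 * t))) := by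
  obtain ⟨y, hy⟩ := hbd
  obtain ⟨σ, h00, h01, h10, h11⟩ := exists_sl (a := b) (b := y) (c := (q : ℤ)) (d := d)
    (by linear_combination hy)
  have hc : σ 1 0 ≠ 0 := by
    rw [h10]
    exact_mod_cast hq.ne'
  have hslash : (fun z : ℍ => 2 * π * Complex.I * (⇑f ∣[(2 : ℤ)] σ) z) =
      fun z : ℍ => 2 * π * Complex.I * (⇑f ∣[(2 : ℤ)] ModularGroup.S) z := by
    rw [slash_eq f (by rw [h11]; exact hd)]
  have h1 : ∀ z : ℍ, HasDerivAt ((fun τ : ℍ => G f (σ • τ)) ∘ ofComplex)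
      (2 * π * Complex.I * (⇑f ∣[(2 : ℤ)] ModularGroup.S) z) (z : ℂ) := by
    intro z
    have h2 := comp_sl (prim_G f).der σ z
    rw [const_slash, hslash] at h2
    exact h2
  obtain ⟨c, hcc⟩ := sub_const h1 (prim_HS f).der
  have hlim1 := tendsto_bd (prim_G f).lim (lim_G f) σ
  have hlim2 : Tendsto (fun τ : ℍ => G f (σ • τ)) atImInfty (𝓝 (0 + c)) := by
    have := (prim_HS f).lim.add_const c
    exact this.congr fun z => (hcc z).symm
  have hceq : c = bd (G f) (mapGL ℚ σ • ∞) := by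
    rw [← zero_add c]
    exact tendsto_nhds_unique hlim2 hlim1
  rw [smul_infty, if_neg hc, h00, h10] at hceq
  have h3 := hcc (vert (-(σ 1 1 : ℝ) / (σ 1 0 : ℝ)) (1 / ((σ 1 0 : ℝ) ^ 2 * t)))
  rw [vert_sl hc ht, h00, h10, h11] at h3
  push_cast at h3 hceq ⊢
  rw [← hceq, h3]
  ring

theorem log_bound (f : CuspForm (Gamma0 N) 2) :
    ∃ C : ℝ, 0 < C ∧ ∀ (b : ℤ) (q : ℕ), 0 < q → IsCoprime b (q : ℤ) → Nat.Coprime q N →
      ‖bd (G f) ((((b : ℚ) / (q : ℚ) : ℚ)) : OnePoint ℚ)‖ ≤ C * (1 + Real.log q) := by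
  obtain ⟨C₀, hC₀⟩ := slash_bound f
  have hb : ∀ (σ : SL(2, ℤ)) (z : ℍ), ‖2 * π * Complex.I * (⇑f ∣[(2 : ℤ)] σ) z‖ ≤
      (2 * π * C₀) / z.im := by
    intro σ z
    rw [norm_mul, norm_mul, norm_mul, Complex.norm_I, Complex.norm_real, Real.norm_eq_abs,
      abs_of_pos Real.pi_pos, Complex.norm_two, mul_one, mul_div_assoc]
    exact mul_le_mul_of_nonneg_left (hC₀ σ z) (by positivity)
  obtain ⟨C₁, hC₁, h1⟩ := prim_log (prim_G f) (C := 2 * π * C₀) (by
    intro z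
    have := hb 1 z
    rwa [SlashAction.slash_one] at this)
  obtain ⟨C₂, hC₂, h2⟩ := prim_log (prim_HS f) (C := 2 * π * C₀) (hb ModularGroup.S)
  refine ⟨C₁ + C₂, by positivity, fun b q hq hbq hqN => ?_⟩
  have hcop : IsCoprime (b * N) (q : ℤ) :=
    IsCoprime.mul_left hbq (Nat.isCoprime_iff_coprime.2 hqN.symm)
  obtain ⟨u, v, huv⟩ := hcop
  have hqr : (0 : ℝ) < q := by exact_mod_cast hq
  have hformula := bd_formula f (b := b) (d := u * N) hq (Dvd.intro_left u rfl)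
    ⟨-v, by linear_combination huv⟩ (t := 1 / q) (by positivity)
  rw [hformula]
  have h3 : (1 : ℝ) / ((q : ℝ) ^ 2 * (1 / q)) = 1 / q := by field_simp
  rw [h3]
  have h4 := h1 ((b : ℝ) / q) (1 / q) (by positivity)
  have h5 := h2 (-((u * N : ℤ) : ℝ) / q) (1 / q) (by positivity)
  have h6 : |Real.log (1 / (q : ℝ))| = Real.log q := by
    rw [one_div, Real.log_inv, abs_neg, abs_of_nonneg]
    exact Real.log_nonneg (by exact_mod_cast hq)
  rw [h6] at h4 h5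
  calc _ ≤ _ := norm_sub_le _ _
    _ ≤ C₁ * (1 + Real.log q) + C₂ * (1 + Real.log q) := add_le_add h4 h5
    _ = _ := by ring

end Pool.Agent.MuOne
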