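import Pool.Agent.MuOne.Series
import Pool.Agent.MU1.Pars2

/-!
The boundary value at `b/Q` as a difference of two absolutely convergent exponential sums.
-/

set_option autoImplicit false

open UpperHalfPlane hiding I
open Filter Topology Complex Function CongruenceSubgroup OnePoint Matrix.SpecialLinearGroup
open scoped MatrixGroups Manifold Real ModularForm

namespace Pool.Agent.MuOne

open Pool.Agent.MZ.Per Pool.Agent.MZ

open ConjAct Pointwise in
/-- The expansion of `f|S`. -/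
theorem exists_series_S {N : ℕ} [NeZero N] (f : CuspForm (Gamma0 N) 2) :
    ∃ c : ℕ → ℂ, c 0 = 0 ∧ ∀ z : ℍ, HasSum
      (fun n : ℕ => c n * cexp (2 * π * Complex.I * n * z / (N : ℝ)))
      ((⇑f ∣[(2 : ℤ)] ModularGroup.S) z) := by
  have hN : (0 : ℝ) < N := by exact_mod_cast Nat.pos_of_ne_zero (NeZero.ne N)
  -- the slashed form is a cusp form
  have harith : ((toConjAct (ModularGroup.S : GL (Fin 2) ℝ)⁻¹) •
      ((Gamma0 N : Subgroup SL(2, ℤ)) : Subgroup (GL (Fin 2) ℝ))).IsArithmetic := by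
    simpa [(show Rat.castHom ℝ = algebraMap ℚ ℝ by rfl), map_inv, Matrix.SpecialLinearGroup.map_mapGL]
      using! Subgroup.IsArithmetic.conj ((Gamma0 N : Subgroup SL(2, ℤ)) : Subgroup (GL (Fin 2) ℝ))
        (Matrix.SpecialLinearGroup.mapGL ℚ ModularGroup.S)⁻¹
  set Γ' := (toConjAct (ModularGroup.S : GL (Fin 2) ℝ)⁻¹) •
    ((Gamma0 N : Subgroup SL(2, ℤ)) : Subgroup (GL (Fin 2) ℝ)) with hΓ'
  let F : CuspForm Γ' 2 := CuspForm.translate f (ModularGroup.S : GL (Fin 2) ℝ)
  have hFf : (F : ℍ → ℂ) = ⇑f ∣[(2 : ℤ)] ModularGroup.S := rfl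
  have hhol : MDiff (⇑f ∣[(2 : ℤ)] ModularGroup.S) := by
    rw [← hFf]
    exact CuspFormClass.holo F
  have hzero : IsZeroAtImInfty (⇑f ∣[(2 : ℤ)] ModularGroup.S) := by
    rw [← hFf]
    exact CuspFormClass.zero_at_infty F
  -- periodicity
  have hper0 : ∀ z : ℍ, (⇑f ∣[(2 : ℤ)] ModularGroup.S) (ModularGroup.T ^ (N : ℤ) • z) =
      (⇑f ∣[(2 : ℤ)] ModularGroup.S) z := by
    intro z
    have h1 : ⇑f ∣[(2 : ℤ)] (ModularGroup.S * ModularGroup.T ^ (N : ℤ)) =
        ⇑f ∣[(2 : ℤ)] ModularGroup.S := by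
      apply slash_eq
      have h2 : (ModularGroup.S * ModularGroup.T ^ (N : ℤ)) 1 1 = (N : ℤ) := by
        rw [Matrix.SpecialLinearGroup.coe_mul, ModularGroup.coe_T_zpow]
        simp [ModularGroup.S, Matrix.mul_apply, Fin.sum_univ_two]
      rw [h2]
    have h3 := congrFun h1 z
    rw [SlashAction.slash_mul, ModularForm.SL_slash_apply] at h3
    have hT10 : (ModularGroup.T ^ (N : ℤ)) 1 0 = 0 := by
      rw [ModularGroup.coe_T_zpow]
      simp
    have hT11 : (ModularGroup.T ^ (N : ℤ)) 1 1 = 1 := by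
      rw [ModularGroup.coe_T_zpow]
      simp
    have h4 : denom ((ModularGroup.T ^ (N : ℤ) : SL(2, ℤ)) : GL (Fin 2) ℝ) z = 1 := by
      rw [ModularGroup.denom_apply, hT10, hT11]
      simp
    rw [h4, one_zpow, mul_one] at h3
    exact h3
  have hper : Periodic ((⇑f ∣[(2 : ℤ)] ModularGroup.S) ∘ ofComplex) ((N : ℝ) : ℂ) := by
    intro w
    by_cases hw : 0 < w.im
    · have hw' : 0 < (w + ((N : ℝ) : ℂ)).im := by simpa using hw
      simp only [comp_apply, ofComplex_apply_of_im_pos hw', ofComplex_apply_of_im_pos hw]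
      rw [← hper0 ⟨w, hw⟩]
      refine congrArg (⇑f ∣[(2 : ℤ)] ModularGroup.S) ?_
      apply UpperHalfPlane.ext
      rw [ModularGroup.coe_T_zpow_smul_eq]
      push_cast
      rfl
    · have h1 : w.im ≤ 0 := not_lt.1 hw
      have h2 : (w + ((N : ℝ) : ℂ)).im ≤ 0 := by simpa using h1
      simp only [comp_apply, ofComplex_apply_of_im_nonpos h1, ofComplex_apply_of_im_nonpos h2]
  have hsum := UpperHalfPlane.hasSum_qExpansion hN hper hhol hzero.isBoundedAtImInfty
  refine ⟨fun n => (UpperHalfPlane.qExpansion (N : ℝ) (⇑f ∣[(2 : ℤ)] ModularGroup.S)).coeff n,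
    ?_, fun z => ?_⟩
  · have han : AnalyticAt ℂ (cuspFunction (N : ℝ) (⇑f ∣[(2 : ℤ)] ModularGroup.S)) 0 :=
      analyticAt_cuspFunction_zero hN hper hhol hzero.isBoundedAtImInfty
    exact (UpperHalfPlane.qExpansion_coeff_zero hN han hper).trans hzero.valueAtInfty_eq_zero
  · convert! hsum z using 2 with n
    rw [smul_eq_mul, Function.Periodic.qParam, ← Complex.exp_nat_mul]
    congr 2
    ring

/-- The value of a series at `x + i t`. -/
theorem cexp_vert (n : ℕ) {x t w : ℝ} (ht : 0 < t) :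
    cexp (2 * π * Complex.I * n * (vert x t : ℍ) / w) =
      (Real.exp (-(2 * π * n * t / w)) : ℂ) * cexp (2 * π * Complex.I * n * x / w) := by
  rw [coe_vert ht, Complex.ofReal_exp, ← Complex.exp_add]
  congr 1
  push_cast
  have hI : Complex.I * Complex.I = -1 := Complex.I_mul_I
  linear_combination (2 * π * n * t / w : ℂ) * hI

theorem bd_split {N : ℕ} [NeZero N] (f : CuspForm (Gamma0 N) 2) {a : ℕ → ℤ}
    (ha : ∀ n, (qExpansion 1 f).coeff n = a n) :
    ∃ (g : ℕ → ℂ) (C : ℝ), 0 < C ∧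
      (∀ y : ℝ, 0 < y → Summable (fun m : ℕ => ‖g m‖ * Real.exp (-2 * π * m * y / N)) ∧
        ∑' m : ℕ, ‖g m‖ * Real.exp (-2 * π * m * y / N) ≤ C * y ^ (-(1 / 2 : ℝ))) ∧
      ∀ Q : ℕ, 0 < Q → Q.Coprime N → ∀ b v : ℤ, IsCoprime b (Q : ℤ) → (Q : ℤ) ∣ N * v * b + 1 →
        ∀ Y : ℝ, 0 < Y →
          bd (G f) (((b : ℚ) / (Q : ℚ) : ℚ) : OnePoint ℚ) =
            (∑' m : ℕ, ((a m : ℂ) / (m : ℂ)) * (Real.exp (-2 * π * m * Y) : ℂ) *
              Complex.exp (2 * π * Complex.I * m * b / Q)) -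
            ∑' m : ℕ, g m * (Real.exp (-2 * π * m * (1 / ((Q : ℝ) ^ 2 * Y)) / N) : ℂ) *
              Complex.exp (2 * π * Complex.I * m * v / Q) := by
  have hN : (0 : ℝ) < N := by exact_mod_cast Nat.pos_of_ne_zero (NeZero.ne N)
  have hNc : (N : ℂ) ≠ 0 := by exact_mod_cast hN.ne'
  have hpi := Real.pi_pos
  have hpic : (π : ℂ) ≠ 0 := by exact_mod_cast hpi.ne'
  have hIc := Complex.I_ne_zero
  obtain ⟨c, hc0, hc⟩ := exists_series_S f
  obtain ⟨C₀, hC₀⟩ := slash_bound f
  -- the series of 2 π i f|S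
  set c' : ℕ → ℂ := fun n => 2 * π * Complex.I * c n with hc'
  have hc'0 : c' 0 = 0 := by rw [hc']; simp [hc0]
  have hcs : ∀ z : ℍ, HasSum (fun n : ℕ => c' n * cexp (2 * π * Complex.I * n * z / (N : ℝ)))
      (2 * π * Complex.I * (⇑f ∣[(2 : ℤ)] ModularGroup.S) z) := by
    intro z
    convert! (hc z).mul_left (2 * π * Complex.I) using 2 with n
    rw [hc']
    ring
  have hCb : ∀ z : ℍ, ‖2 * π * Complex.I * (⇑f ∣[(2 : ℤ)] ModularGroup.S) z‖ * z.im ≤
      2 * π * C₀ := by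
    intro z
    rw [norm_mul, norm_mul, norm_mul, Complex.norm_I, Complex.norm_real, Real.norm_eq_abs,
      abs_of_pos hpi, Complex.norm_two, mul_one, mul_assoc]
    refine mul_le_mul_of_nonneg_left ?_ (by positivity)
    rw [← le_div_iff₀ z.im_pos]
    exact hC₀ _ z
  obtain ⟨C', hC'0, hl1⟩ := Pool.Agent.MU1.l1_of_bound hN hc'0 hcs hCb
  have hl2 := fun t ht => Pool.Agent.MU1.l1_prim (c := c') hN hl1 t ht
  -- the series of the primitives
  set g : ℕ → ℂ := fun n => c' n * N / (2 * π * Complex.I * n) with hg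
  have hgn : ∀ n, ‖g n‖ = N / (2 * π) * (‖c' n‖ / n) := by
    intro n
    rw [hg]
    simp only
    have h1 : ‖(2 * π * Complex.I * n : ℂ)‖ = 2 * π * n := by
      rw [norm_mul, norm_mul, norm_mul, Complex.norm_I, Complex.norm_real, Complex.norm_two,
        Real.norm_eq_abs, abs_of_pos hpi, mul_one, Complex.norm_natCast]
    generalize c' n = x
    rw [norm_div, norm_mul, h1, Complex.norm_natCast]
    rcases Nat.eq_zero_or_pos n with hn | hn
    · subst hn
      simp
    · have : (n : ℝ) ≠ 0 := by positivity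
      field_simp
  have hHs := fun z => prim_series hN (prim_HS f) hc'0 hcs z
  have hGs : ∀ z : ℍ, HasSum (fun n : ℕ => ((a n : ℂ) / n) *
      cexp (2 * π * Complex.I * n * z / (1 : ℝ))) (G f z) := by
    intro z
    have h0 : ∀ z : ℍ, HasSum (fun n : ℕ => (2 * π * Complex.I * (a n : ℂ)) *
        cexp (2 * π * Complex.I * n * z / (1 : ℝ))) (2 * π * Complex.I * f z) := by
      intro z
      have h1 := (hasSum_q f (a := fun n => (a n : ℂ)) ha (z : ℂ) z.im_pos).mul_left
        (2 * π * Complex.I)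
      rw [ofComplex_apply] at h1
      convert! h1 using 2 with n
      rw [Complex.ofReal_one, div_one]
      ring
    have ha0 : (a 0 : ℂ) = 0 := coeff_zero f (a := fun n => (a n : ℂ)) ha
    have h2 := prim_series one_pos (prim_G f) (c := fun n => 2 * π * Complex.I * (a n : ℂ))
      (by simp [ha0]) h0 z
    convert! h2 using 2 with n
    congr 1
    rcases Nat.eq_zero_or_pos n with hn | hn
    · subst hn
      simp
    · have : (n : ℂ) ≠ 0 := by exact_mod_cast hn.ne'
      rw [Complex.ofReal_one]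
      field_simp
  refine ⟨g, 2 * C' + 1, by positivity, fun y hy => ?_, ?_⟩
  · obtain ⟨h1, h2⟩ := hl2 y hy
    have h3 : (fun m : ℕ => ‖g m‖ * Real.exp (-2 * π * m * y / N)) =
        fun m : ℕ => N / (2 * π) * (‖c' m‖ / m * Real.exp (-(2 * π * m * y / N))) := by
      funext m
      rw [hgn]
      have : -2 * π * m * y / (N : ℝ) = -(2 * π * m * y / N) := by ring
      rw [this]
      ring
    rw [h3]
    refine ⟨h1.mul_left _, ?_⟩
    rw [tsum_mul_left]
    have hy2 : 0 ≤ y ^ (-(1 / 2 : ℝ)) := Real.rpow_nonneg hy.le _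
    calc _ ≤ N / (2 * π) * (4 * π * C' / N * y ^ (-(1 / 2) : ℝ)) :=
          mul_le_mul_of_nonneg_left h2 (by positivity)
      _ = 2 * C' * y ^ (-(1 / 2 : ℝ)) := by field_simp; ring
      _ ≤ (2 * C' + 1) * y ^ (-(1 / 2 : ℝ)) := by nlinarith
  · intro Q hQ hQN b v hbQ hv Y hY
    have hQr : (0 : ℝ) < Q := by exact_mod_cast hQ
    have hQc : (Q : ℂ) ≠ 0 := by exact_mod_cast hQr.ne'
    obtain ⟨k, hk⟩ := hv
    rw [bd_formula f (b := b) (d := -(N * v)) hQ (Dvd.intro (-v) (by ring))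
      ⟨-k, by linear_combination -hk⟩ hY]
    have hY' : 0 < 1 / ((Q : ℝ) ^ 2 * Y) := by positivity
    congr 1
    · rw [← (hGs _).tsum_eq]
      refine tsum_congr fun m => ?_
      rw [cexp_vert m hY, ← mul_assoc]
      congr 2
      · congr 2
        ring
      · push_cast
        ring
    · rw [← (hHs _).tsum_eq]
      refine tsum_congr fun m => ?_
      rw [cexp_vert m hY', ← mul_assoc]
      congr 2
      · congr 2
        ring
      · push_cast
        field_simp

end Pool.Agent.MuOne
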