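import Pool.Agent.MZ.PerI

/-!
Logarithmic bounds for the primitives of weight two cusp forms.
-/

set_option autoImplicit false

open UpperHalfPlane hiding I
open Filter Topology Complex Function CongruenceSubgroup OnePoint Matrix.SpecialLinearGroup
open scoped MatrixGroups Manifold Real ModularForm

namespace Pool.Agent.MuOne

open Pool.Agent.MZ.Per Pool.Agent.MZ

theorem prim_log {g G : ℍ → ℂ} (hG : Prim g G 0) {C : ℝ} (hC : ∀ z : ℍ, ‖g z‖ ≤ C / z.im) :
    ∃ C' : ℝ, 0 < C' ∧ ∀ (x t : ℝ), 0 < t → ‖G (vert x t)‖ ≤ C' * (1 + |Real.log t|) := by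
  have hC0 : 0 ≤ C := by
    have h := (norm_nonneg _).trans (hC UpperHalfPlane.I)
    have h1 : UpperHalfPlane.I.im = 1 := by simp [UpperHalfPlane.I]
    rw [h1, div_one] at h
    exact h
  obtain ⟨A, hA0, hA⟩ : ∃ A : ℝ, 0 < A ∧ ∀ z : ℍ, A ≤ z.im → ‖G z‖ ≤ 1 := by
    have h1 : ∀ᶠ z in atImInfty, ‖G z‖ ≤ 1 := by
      have h2 := hG.lim.norm
      rw [norm_zero] at h2
      exact (h2.eventually (gt_mem_nhds zero_lt_one)).mono fun z hz => hz.le
    rw [atImInfty, eventually_comap, eventually_atTop] at h1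
    obtain ⟨A, hA⟩ := h1
    exact ⟨max A 1, by positivity, fun z hz => hA z.im ((le_max_left _ _).trans hz) z rfl⟩
  refine ⟨1 + C + C * |Real.log A|, by positivity, fun x t ht => ?_⟩
  set F : ℝ → ℂ := fun u => G (vert x (Real.exp u)) with hF
  have hder : ∀ u : ℝ, HasDerivAt F (g (vert x (Real.exp u)) * ((Real.exp u : ℝ) * Complex.I)) u := by
    intro u
    have h1 : HasDerivAt (fun u : ℝ => (x : ℂ) + ((Real.exp u : ℝ) : ℂ) * Complex.I)
        (((Real.exp u : ℝ) : ℂ) * Complex.I) u := by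
      have h2 : HasDerivAt (fun u : ℝ => ((Real.exp u : ℝ) : ℂ)) ((Real.exp u : ℝ) : ℂ) u :=
        (Real.hasDerivAt_exp u).ofReal_comp
      exact (h2.mul_const Complex.I).const_add (x : ℂ)
    have h3 := hG.der (vert x (Real.exp u))
    rw [coe_vert (Real.exp_pos u)] at h3
    exact HasDerivAt.comp_of_eq (h₂ := G ∘ ofComplex)
      (h := fun u : ℝ => (x : ℂ) + ((Real.exp u : ℝ) : ℂ) * Complex.I) u h3 h1 rfl
  have hnorm : ∀ u : ℝ, ‖g (vert x (Real.exp u)) * ((Real.exp u : ℝ) * Complex.I)‖ ≤ C := by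
    intro u
    rw [norm_mul, norm_mul, Complex.norm_I, mul_one, Complex.norm_real, Real.norm_eq_abs,
      abs_of_pos (Real.exp_pos u)]
    have h1 := hC (vert x (Real.exp u))
    rw [im_vert (Real.exp_pos u)] at h1
    calc _ ≤ C / Real.exp u * Real.exp u :=
          mul_le_mul_of_nonneg_right h1 (Real.exp_pos u).le
      _ = C := div_mul_cancel₀ _ (Real.exp_pos u).ne'
  have hmv : ‖F (Real.log t) - F (Real.log A)‖ ≤ C * ‖Real.log t - Real.log A‖ := by
    apply Convex.norm_image_sub_le_of_norm_hasDerivWithin_le (s := Set.univ)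
      (f' := fun u => g (vert x (Real.exp u)) * ((Real.exp u : ℝ) * Complex.I))
    · intro u _
      exact (hder u).hasDerivWithinAt
    · intro u _
      exact hnorm u
    · exact convex_univ
    · exact Set.mem_univ _
    · exact Set.mem_univ _
  have h1 : F (Real.log t) = G (vert x t) := by rw [hF]; simp only; rw [Real.exp_log ht]
  have h2 : ‖F (Real.log A)‖ ≤ 1 := by
    rw [hF]
    simp only
    rw [Real.exp_log hA0]
    exact hA _ (im_vert hA0).ge
  rw [h1] at hmv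
  have h3 : ‖G (vert x t)‖ ≤ ‖G (vert x t) - F (Real.log A)‖ + ‖F (Real.log A)‖ := by
    have := norm_add_le (G (vert x t) - F (Real.log A)) (F (Real.log A))
    rwa [sub_add_cancel] at this
  have h4 : ‖Real.log t - Real.log A‖ ≤ |Real.log t| + |Real.log A| := by
    rw [Real.norm_eq_abs]
    exact abs_sub _ _
  have h5 : C * ‖Real.log t - Real.log A‖ ≤ C * (|Real.log t| + |Real.log A|) :=
    mul_le_mul_of_nonneg_left h4 hC0
  have h6 : 0 ≤ |Real.log t| := abs_nonneg _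
  have h7 : 0 ≤ |Real.log A| := abs_nonneg _
  nlinarith [mul_nonneg hC0 h6, mul_nonneg (mul_nonneg hC0 h7) h6]

/-- The weight two bound for `f|σ`. -/
theorem slash_bound {N : ℕ} [NeZero N] (f : CuspForm (Gamma0 N) 2) :
    ∃ C : ℝ, ∀ (σ : SL(2, ℤ)) (z : ℍ), ‖(⇑f ∣[(2 : ℤ)] σ) z‖ ≤ C / z.im := by
  obtain ⟨C, hC⟩ := CuspFormClass.exists_bound f
  refine ⟨C, fun σ z => ?_⟩
  have h1 := hC (σ • z)
  have h2 : ((2 : ℤ) / 2 : ℝ) = 1 := by norm_num
  rw [h2, Real.rpow_one] at h1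
  rw [ModularForm.SL_slash_apply]
  have hden : denom (σ : GL (Fin 2) ℝ) z ≠ 0 := denom_ne_zero _ z
  have him : (σ • z).im = z.im / Complex.normSq (denom (σ : GL (Fin 2) ℝ) z) := by
    exact ModularGroup.im_smul_eq_div_normSq σ z
  rw [norm_mul, norm_zpow]
  rw [him, Complex.normSq_eq_norm_sq] at h1
  have h3 : 0 < ‖denom (σ : GL (Fin 2) ℝ) z‖ := norm_pos_iff.2 hden
  have h4 : ‖denom (σ : GL (Fin 2) ℝ) z‖ ^ (-2 : ℤ) = (‖denom (σ : GL (Fin 2) ℝ) z‖ ^ 2)⁻¹ := by
    rw [zpow_neg]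
    norm_cast
  calc _ ≤ C / (z.im / ‖denom (σ : GL (Fin 2) ℝ) z‖ ^ 2) * ‖denom (σ : GL (Fin 2) ℝ) z‖ ^ (-2 : ℤ) :=
        mul_le_mul_of_nonneg_right h1 (zpow_nonneg h3.le _)
    _ = C / z.im := by
        rw [h4]
        field_simp

end Pool.Agent.MuOne
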