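import Pool.Agent.Dav.Bound

/-!
M1. Davenport's bound for the number of points of `y² = x³ + A x + B` modulo a prime.
-/

set_option autoImplicit false

namespace Pool.Agent.MuOne

theorem dav_bound {l : ℕ} [Fact l.Prime] (h3 : 3 < l) (A B : ZMod l) (h : ¬ (A = 0 ∧ B = 0)) :
    |((Nat.card {P : ZMod l × ZMod l // P.2 ^ 2 = P.1 ^ 3 + A * P.1 + B} : ℕ) : ℝ) - l| ≤
      3 * (l : ℝ) ^ (3 / 4 : ℝ) := by
  classical
  have hF : ringChar (ZMod l) ≠ 2 := by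
    rw [ZMod.ringChar_zmod_n]
    omega
  have h33 : (3 : ZMod l) ≠ 0 := by
    intro h0
    have h1 : ((3 : ℕ) : ZMod l) = 0 := by exact_mod_cast h0
    rw [ZMod.natCast_eq_zero_iff] at h1
    exact absurd (Nat.le_of_dvd (by norm_num) h1) (by omega)
  have hAB : A ≠ 0 ∨ B ≠ 0 := by
    by_contra hcon
    push Not at hcon
    exact h hcon
  have h4 := Pool.Agent.Dav.S_pow_four_le hF h33 hAB
  have h5 := Pool.Agent.Dav.card_points hF A B
  rw [ZMod.card] at h4 h5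
  set s : ℤ := Pool.Agent.Dav.S A B with hs
  have h6 : ((Nat.card {P : ZMod l × ZMod l // P.2 ^ 2 = P.1 ^ 3 + A * P.1 + B} : ℕ) : ℝ) - l =
      (s : ℝ) := by
    have : ((Nat.card {P : ZMod l × ZMod l // P.2 ^ 2 = P.1 ^ 3 + A * P.1 + B} : ℕ) : ℝ) =
        (l : ℝ) + (s : ℝ) := by exact_mod_cast h5
    rw [this]
    ring
  rw [h6]
  have hl : (5 : ℝ) ≤ l := by
    have : 5 ≤ l := by
      have hp : l.Prime := Fact.out
      by_contra hcon
      push Not at hcon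
      have : l = 4 := by omega
      subst this
      exact absurd hp (by decide)
    exact_mod_cast this
  have h7 : ((l : ℝ) - 1) * (s : ℝ) ^ 4 ≤ 12 * (l : ℝ) ^ 4 := by exact_mod_cast h4
  have h8 : |(s : ℝ)| ^ 4 ≤ (3 * (l : ℝ) ^ (3 / 4 : ℝ)) ^ 4 := by
    have e1 : |(s : ℝ)| ^ 4 = (s : ℝ) ^ 4 := by
      rw [← abs_pow]
      exact abs_of_nonneg (by positivity)
    have e2 : (3 * (l : ℝ) ^ (3 / 4 : ℝ)) ^ 4 = 81 * (l : ℝ) ^ 3 := by
      rw [mul_pow, ← Real.rpow_natCast ((l : ℝ) ^ (3 / 4 : ℝ)) 4, ← Real.rpow_mul (by positivity)]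
      norm_num
    rw [e1, e2]
    have h9 : (0 : ℝ) ≤ (s : ℝ) ^ 4 := by positivity
    have h10 : (4 / 5 * (l : ℝ)) * (s : ℝ) ^ 4 ≤ (l : ℝ) * (12 * (l : ℝ) ^ 3) := by
      have : (4 / 5 * (l : ℝ)) * (s : ℝ) ^ 4 ≤ ((l : ℝ) - 1) * (s : ℝ) ^ 4 := by
        apply mul_le_mul_of_nonneg_right _ h9
        linarith
      linarith
    have h11 : (l : ℝ) * (4 / 5 * (s : ℝ) ^ 4) ≤ (l : ℝ) * (12 * (l : ℝ) ^ 3) := by linarith
    have h12 := le_of_mul_le_mul_left h11 (by linarith)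
    have h13 : (0 : ℝ) ≤ (l : ℝ) ^ 3 := by positivity
    linarith
  exact le_of_pow_le_pow_left₀ (by norm_num) (by positivity) h8

end Pool.Agent.MuOne
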