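import Pool.Agent.MuOne.Ana2

/-!
Expansions of the primitives.
-/

set_option autoImplicit false

open UpperHalfPlane hiding I
open Filter Topology Complex Function CongruenceSubgroup OnePoint Matrix.SpecialLinearGroup
open scoped MatrixGroups Manifold Real ModularForm

namespace Pool.Agent.MuOne

open Pool.Agent.MZ.Per Pool.Agent.MZ

/-- norm of the exponential -/
theorem norm_cexp_term {w : ℝ} (n : ℕ) (z : ℂ) :
    ‖cexp (2 * π * Complex.I * n * z / w)‖ = Real.exp (-(2 * π * n * z.im / w)) := by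
  rw [Complex.norm_exp]
  congr 1
  have h1 : (2 * π * Complex.I * n * z / w : ℂ) = ((2 * π * n / w : ℝ) : ℂ) * (z * Complex.I) := by
    push_cast
    ring
  rw [h1, Complex.re_ofReal_mul]
  simp
  ring

theorem summable_norm_term {g : ℍ → ℂ} {w : ℝ} {c : ℕ → ℂ}
    (hg : ∀ z : ℍ, HasSum (fun n : ℕ => c n * cexp (2 * π * Complex.I * n * z / w)) (g z))
    {y : ℝ} (hy : 0 < y) : Summable (fun n : ℕ => ‖c n‖ * Real.exp (-(2 * π * n * y / w))) := by
  have h1 := (hg ⟨(y : ℂ) * Complex.I, by simpa using hy⟩).summable.norm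
  refine h1.congr fun n => ?_
  rw [norm_mul, norm_cexp_term]
  simp

/-- The expansion of a primitive. -/
theorem prim_series {g G : ℍ → ℂ} {w : ℝ} (hw : 0 < w) (hG : Prim g G 0) {c : ℕ → ℂ}
    (hc0 : c 0 = 0)
    (hg : ∀ z : ℍ, HasSum (fun n : ℕ => c n * cexp (2 * π * Complex.I * n * z / w)) (g z)) (z : ℍ) :
    HasSum (fun n : ℕ => c n * w / (2 * π * Complex.I * n) * cexp (2 * π * Complex.I * n * z / w))
      (G z) := by
  have hwc : (w : ℂ) ≠ 0 := by exact_mod_cast hw.ne'
  have hpi := Real.pi_pos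
  have hpic : (π : ℂ) ≠ 0 := by exact_mod_cast hpi.ne'
  set F : ℕ → ℂ → ℂ := fun n x =>
    c n * w / (2 * π * Complex.I * n) * cexp (2 * π * Complex.I * n * x / w) with hF
  set K : ℂ → ℂ := fun x => ∑' n, F n x with hK
  -- bound of the terms
  have hbound : ∀ {y : ℝ}, 0 < y → ∀ (n : ℕ) (x : ℂ), y ≤ x.im →
      ‖F n x‖ ≤ w * (‖c n‖ * Real.exp (-(2 * π * n * y / w))) := by
    intro y hy n x hx
    rcases Nat.eq_zero_or_pos n with hn | hn
    · subst hn
      simp [hF, hc0]
    · have hn1 : (1 : ℝ) ≤ n := by exact_mod_cast hn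
      rw [hF]
      simp only
      rw [norm_mul, norm_div, norm_mul, norm_cexp_term]
      have h1 : ‖(2 * π * Complex.I * n : ℂ)‖ = 2 * π * n := by
        rw [norm_mul, norm_mul, norm_mul, Complex.norm_I, Complex.norm_real, Complex.norm_two,
          Real.norm_eq_abs, abs_of_pos hpi, mul_one, Complex.norm_natCast]
      rw [h1, Complex.norm_real, Real.norm_eq_abs, abs_of_pos hw]
      have h2 : ‖c n‖ * w / (2 * π * n) ≤ w * ‖c n‖ := by
        rw [div_le_iff₀ (by positivity), mul_comm ‖c n‖ w]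
        have h3 : (1 : ℝ) ≤ 2 * π * n := by nlinarith [Real.pi_gt_three]
        exact le_mul_of_one_le_right (by positivity) h3
      have h4 : Real.exp (-(2 * π * n * x.im / w)) ≤ Real.exp (-(2 * π * n * y / w)) := by
        apply Real.exp_le_exp.2
        apply neg_le_neg
        gcongr
      calc _ ≤ w * ‖c n‖ * Real.exp (-(2 * π * n * y / w)) :=
            mul_le_mul h2 h4 (Real.exp_pos _).le (by positivity)
        _ = _ := by ring
  have hFd : ∀ (n : ℕ) (x : ℂ), HasDerivAt (F n) (c n * cexp (2 * π * Complex.I * n * x / w)) x := by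
    intro n x
    have h1 : HasDerivAt (fun x : ℂ => 2 * π * Complex.I * n * x / w)
        (2 * π * Complex.I * n / w) x := by
      have := ((hasDerivAt_id x).const_mul (2 * π * Complex.I * n : ℂ)).div_const (w : ℂ)
      simpa using this
    have h2 := (h1.cexp).const_mul (c n * w / (2 * π * Complex.I * n) : ℂ)
    convert! h2 using 1
    rcases Nat.eq_zero_or_pos n with hn | hn
    · subst hn
      simp [hc0]
    · have hnc : (n : ℂ) ≠ 0 := by exact_mod_cast hn.ne'
      have hI := Complex.I_ne_zero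
      field_simp
  have hsum : ∀ {y : ℝ}, 0 < y → Summable
      (fun n : ℕ => w * (‖c n‖ * Real.exp (-(2 * π * n * y / w)))) :=
    fun hy => (summable_norm_term hg hy).mul_left w
  -- the derivative
  have hKd : ∀ x : ℍ, HasDerivAt K (g x) (x : ℂ) := by
    intro x
    set U : Set ℂ := {u : ℂ | x.im / 2 < u.im} with hU
    have hUo : IsOpen U := isOpen_lt continuous_const Complex.continuous_im
    have hx0 : 0 < x.im / 2 := half_pos x.im_pos
    have hxU : (x : ℂ) ∈ U := by
      change x.im / 2 < (x : ℂ).im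
      rw [coe_im]
      linarith [x.im_pos]
    have hle : ∀ (n : ℕ) (u : ℂ), u ∈ U →
        ‖F n u‖ ≤ w * (‖c n‖ * Real.exp (-(2 * π * n * (x.im / 2) / w))) :=
      fun n u hu => hbound hx0 n u (le_of_lt hu)
    have hdiff : ∀ n : ℕ, DifferentiableOn ℂ (F n) U :=
      fun n u _ => (hFd n u).differentiableAt.differentiableWithinAt
    have h1 := hasSum_deriv_of_summable_norm (hsum hx0) hdiff hUo hle hxU
    have h2 : DifferentiableOn ℂ K U :=
      differentiableOn_tsum_of_summable_norm (hsum hx0) hdiff hUo hle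
    have h3 : DifferentiableAt ℂ K (x : ℂ) := h2.differentiableAt (hUo.mem_nhds hxU)
    have h4 : (fun n : ℕ => deriv (F n) (x : ℂ)) =
        fun n : ℕ => c n * cexp (2 * π * Complex.I * n * x / w) := by
      funext n
      exact (hFd n x).deriv
    rw [h4] at h1
    have h5 : deriv K (x : ℂ) = g x := h1.unique (hg x)
    rw [← h5]
    exact h3.hasDerivAt
  have hKd' : ∀ x : ℍ, HasDerivAt ((fun τ : ℍ => K (τ : ℂ)) ∘ ofComplex) (g x) (x : ℂ) := by
    intro x
    refine (hKd x).congr_of_eventuallyEq ?_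
    filter_upwards [im_pos_open.mem_nhds x.im_pos] with u hu
    simp only [comp_apply]
    rw [ofComplex_apply_of_im_pos hu]
  -- the limit
  have hsumF : ∀ x : ℍ, Summable (fun n => F n (x : ℂ)) := by
    intro x
    refine Summable.of_norm_bounded (hsum x.im_pos) fun n => ?_
    exact hbound x.im_pos n x (by rw [coe_im])
  have hKlim : Tendsto (fun τ : ℍ => K (τ : ℂ)) atImInfty (𝓝 0) := by
    set M : ℝ := ∑' n : ℕ, w * (‖c n‖ * Real.exp (-(2 * π * n * 1 / w))) with hM
    have hb : ∀ τ : ℍ, 1 ≤ τ.im → ‖K (τ : ℂ)‖ ≤ M * Real.exp (-(2 * π * (τ.im - 1) / w)) := by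
      intro τ hτ
      have h1 : ∀ n : ℕ, ‖F n (τ : ℂ)‖ ≤
          (w * (‖c n‖ * Real.exp (-(2 * π * n * 1 / w)))) * Real.exp (-(2 * π * (τ.im - 1) / w)) := by
        intro n
        rcases Nat.eq_zero_or_pos n with hn | hn
        · subst hn
          simp [hF, hc0]
        · have h2 := hbound τ.im_pos n (τ : ℂ) (by rw [coe_im])
          refine h2.trans ?_
          have he : (w * (‖c n‖ * Real.exp (-(2 * π * n * 1 / w)))) *
              Real.exp (-(2 * π * (τ.im - 1) / w)) =
              w * (‖c n‖ * Real.exp (-(2 * π * n * 1 / w) + -(2 * π * (τ.im - 1) / w))) := by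
            rw [Real.exp_add]
            ring
          rw [he]
          have hn1 : (1 : ℝ) ≤ n := by exact_mod_cast hn
          gcongr
          have h3 : 2 * π * (τ.im - 1) / w ≤ 2 * π * n * (τ.im - 1) / w := by
            gcongr ?_ / w
            have : 0 ≤ 2 * π * (τ.im - 1) := by
              have : 0 ≤ τ.im - 1 := by linarith
              positivity
            nlinarith
          have h4 : 2 * π * n * τ.im / w = 2 * π * n * 1 / w + 2 * π * n * (τ.im - 1) / w := by ring
          rw [h4]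
          linarith
      calc ‖K (τ : ℂ)‖ ≤ ∑' n, ‖F n (τ : ℂ)‖ := norm_tsum_le_tsum_norm (hsumF τ).norm
        _ ≤ ∑' n : ℕ, (w * (‖c n‖ * Real.exp (-(2 * π * n * 1 / w)))) *
            Real.exp (-(2 * π * (τ.im - 1) / w)) :=
            (hsumF τ).norm.tsum_le_tsum h1 ((hsum one_pos).mul_right _)
        _ = _ := tsum_mul_right
    rw [tendsto_zero_iff_norm_tendsto_zero]
    have hlim : Tendsto (fun τ : ℍ => M * Real.exp (-(2 * π * (τ.im - 1) / w))) atImInfty
        (𝓝 (M * 0)) := by
      refine Tendsto.const_mul M ?_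
      refine Real.tendsto_exp_neg_atTop_nhds_zero.comp ?_
      have h1 : Tendsto (fun τ : ℍ => τ.im) atImInfty atTop := tendsto_comap
      have h2 : Tendsto (fun τ : ℍ => τ.im - 1) atImInfty atTop := tendsto_atTop_add_const_right _ _ h1
      exact (h2.const_mul_atTop (by positivity : (0 : ℝ) < 2 * π)).atTop_div_const hw
    rw [mul_zero] at hlim
    refine squeeze_zero' (Eventually.of_forall fun _ => norm_nonneg _) ?_ hlim
    have h1 : ∀ᶠ τ : ℍ in atImInfty, 1 ≤ τ.im := by
      rw [atImInfty, eventually_comap]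
      filter_upwards [eventually_ge_atTop 1] with y hy τ hτ
      rw [hτ]
      exact hy
    exact h1.mono hb
  obtain ⟨k, hk⟩ := sub_const hG.der hKd'
  have hk0 : k = 0 := by
    have h1 : Tendsto (fun τ : ℍ => G τ - K (τ : ℂ)) atImInfty (𝓝 (0 - 0)) := hG.lim.sub hKlim
    have h2 : Tendsto (fun τ : ℍ => G τ - K (τ : ℂ)) atImInfty (𝓝 k) := by
      refine tendsto_const_nhds.congr fun τ => ?_
      rw [hk τ]
      ring
    have h3 := tendsto_nhds_unique h2 h1
    rw [h3, sub_zero]
  rw [hk z, hk0, add_zero]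
  exact (hsumF z).hasSum

end Pool.Agent.MuOne
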